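import Mathlib
import Pool.Agent.MP_d6da41_co.Final

/-! The classification of the chiral polytopes of full rank. -/

namespace Pool.Agent.Results.MP_d6da41_co.FullRank

open Pool.Agent.MP_d6da41_co

theorem result :
    (∀ d, d ≠ 4 → ∀ X, ¬ IsChiral Finite d d X) ∧
    (∀ d, d ≠ 3 → d ≠ 4 → ∀ X, ¬ IsChiral Infinite d (d + 1) X) ∧
    Classifies (IsChiral Finite 4 4) fin4 ∧
    Classifies (IsChiral Infinite 3 4) inf3 ∧
    Classifies (IsChiral Infinite 4 5) inf4 :=
  stmt

end Pool.Agent.Results.MP_d6da41_co.FullRank
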